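import Pool.Agent.Helper24.Snev.HalfSet

set_option autoImplicit false

namespace Pool.Agent.Helper7.Old.SnevilyAntipodalPairs

/-- Snevily's even cyclic conjecture, for every even `n`, whenever one of the two sets has no
antipodal pair: if equal-size sets `A`, `B` in `Z/nZ` admit no bijection `f` from `A` to `B` with
the sums `a + f a` all distinct, then BOTH `A` and `B` contain two elements differing by `n / 2`. -/
theorem result (n : ℕ) (hn0 : 0 < n) (_hn : Even n)
    (A B : Finset (ZMod n)) (hc : A.card = B.card)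
    (hno : ¬ ∃ f : ZMod n → ZMod n,
      Set.BijOn f (A : Set (ZMod n)) (B : Set (ZMod n)) ∧
      Set.InjOn (fun a => a + f a) (A : Set (ZMod n))) :
    (∃ a ∈ A, a + ((n / 2 : ℕ) : ZMod n) ∈ A) ∧
      (∃ b ∈ B, b + ((n / 2 : ℕ) : ZMod n) ∈ B) := by
  haveI : NeZero n := ⟨hn0.ne'⟩
  exact ⟨Pool.Agent.Helper24.Snev.antipodal_of_no B A hc.symm
      (Pool.Agent.Helper24.Snev.swap_no A B hno),
    Pool.Agent.Helper24.Snev.antipodal_of_no A B hc hno⟩

end Pool.Agent.Helper7.Old.SnevilyAntipodalPairs
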