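import Pool.Agent.Helper7.CYC.OddAsm
import Pool.Agent.Helper10.CYC.PieceC
import Pool.Agent.Helper10.CYC.PieceD
import Pool.Agent.Helper73.SNC.Red
import Pool.Agent.Helper91.CYC.PieceA
import Pool.Agent.Helper91.CYC.PieceE
import Pool.Agent.Helper47.CYC.PolyF
import Pool.Agent.Helper75.CYC.PolyG

set_option autoImplicit false

namespace Pool.Agent.Helper7.Old.SnevilyOddSize

/-- Snevily's conjecture for cyclic groups of any order, for sets of odd size: if `A`, `B` in
`Z/nZ` have the same odd number of elements, there is a bijection `f` from `A` to `B` with the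
sums `a + f a` all distinct. -/
theorem result (n : ℕ) (hn0 : 0 < n)
    (A B : Finset (ZMod n)) (hc : A.card = B.card) (hodd : Odd A.card) :
    ∃ f : ZMod n → ZMod n,
      Set.BijOn f (A : Set (ZMod n)) (B : Set (ZMod n)) ∧
      Set.InjOn (fun a => a + f a) (A : Set (ZMod n)) := by
  have : NeZero n := ⟨hn0.ne'⟩
  exact Pool.Agent.Helper7.CYC.tr_of_odd Pool.Agent.Helper91.CYC.st_a5
    (Pool.Agent.Helper73.SNC.st_b Pool.Agent.Helper91.CYC.st_a1 Pool.Agent.Helper91.CYC.st_a2)
    Pool.Agent.Helper10.CYC.st_c Pool.Agent.Helper10.CYC.st_d Pool.Agent.Helper91.CYC.st_e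
    Pool.Agent.Helper47.CYC.st_f Pool.Agent.Helper75.CYC.st_g hc hodd

end Pool.Agent.Helper7.Old.SnevilyOddSize
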