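import Pool.Agent.Helper73.SN.Per

set_option autoImplicit false

namespace Pool.Agent.Helper7.Old.SnevilyPeriodicPairs

/-- Snevily's even cyclic conjecture, for every even `n`, whenever both sets are invariant under
`x ↦ x + n / 2`: if such equal-size sets `A`, `B` in `Z/nZ` admit no bijection `f` from `A` to `B`
with the sums `a + f a` all distinct, then `A` and `B` are cosets of one subgroup of even order. -/
theorem result (n : ℕ) (hn0 : 0 < n) (hn : Even n)
    (A B : Finset (ZMod n)) (hc : A.card = B.card)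
    (hA : ∀ x ∈ A, x + ((n / 2 : ℕ) : ZMod n) ∈ A)
    (hB : ∀ x ∈ B, x + ((n / 2 : ℕ) : ZMod n) ∈ B)
    (hno : ¬ ∃ f : ZMod n → ZMod n,
      Set.BijOn f (A : Set (ZMod n)) (B : Set (ZMod n)) ∧
      Set.InjOn (fun a => a + f a) (A : Set (ZMod n))) :
    ∃ H : AddSubgroup (ZMod n), Even (Nat.card H) ∧
      ∃ a b : ZMod n,
        (∀ x : ZMod n, x ∈ A ↔ x - a ∈ H) ∧
        (∀ x : ZMod n, x ∈ B ↔ x - b ∈ H) := by
  rcases Pool.Agent.Helper73.SN.perP hn0 hn A B hc hA hB with h | h
  · exact absurd h hno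
  · exact h

end Pool.Agent.Helper7.Old.SnevilyPeriodicPairs
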