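import Pool.Agent.Helper38.SnevP

set_option autoImplicit false

namespace Pool.Agent.Helper7.Old.SnevilyTwiceOdd

/-- Snevily's even cyclic conjecture for every `n` congruent to 2 modulo 4: if equal-size sets
`A`, `B` in `Z/nZ` admit no bijection `f` from `A` to `B` with the sums `a + f a` all distinct,
then `A` and `B` are cosets of one subgroup of even order. -/
theorem result (n : ℕ) (hn : n % 4 = 2)
    (A B : Finset (ZMod n)) (hc : A.card = B.card)
    (hno : ¬ ∃ f : ZMod n → ZMod n,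
      Set.BijOn f (A : Set (ZMod n)) (B : Set (ZMod n)) ∧
      Set.InjOn (fun a => a + f a) (A : Set (ZMod n))) :
    ∃ H : AddSubgroup (ZMod n), Even (Nat.card H) ∧
      ∃ a b : ZMod n, (∀ x : ZMod n, x ∈ A ↔ x - a ∈ H) ∧
        (∀ x : ZMod n, x ∈ B ↔ x - b ∈ H) := by
  obtain ⟨m, rfl⟩ : ∃ m, n = 2 * m := ⟨n / 2, by omega⟩
  have hm : Odd m := by
    rw [Nat.odd_iff]
    omega
  exact Pool.Agent.Helper38.SnevG.snevily_twice_odd m hm A B hc hno

end Pool.Agent.Helper7.Old.SnevilyTwiceOdd
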